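import Pool.Agent.H71.FX.Targets

/-! The tiling (row TI of fxm). -/

set_option autoImplicit false

namespace Pool.Agent.H95.FX

open Pool.Agent.H71.FX Pool.Agent.H71.PF Pool.Agent.H8.PL

theorem pf_TI : T_TI := by
  intro α Q m U Hh Vv z W H hm hC
  have h5 : ∀ x, m.G5 U Hh Vv x := fun x => (hm x).2.2.2.2
  choose t ht using fun (a b : ℕ) => (h5 (m.r^[a] (m.u^[b] z))).1
  refine ⟨t, ?_, ?_, ?_⟩
  · intro a ha b hb
    obtain ⟨h1, h2, h3, h4, -⟩ := hC a b ha hb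
    refine (h5 (m.r^[a] (m.u^[b] z))).2.1 _ (ht a b) _ _ _ _ ?_ ?_ ?_ ?_
    · rw [decide_eq_true_iff, h1]
    · rw [decide_eq_true_iff, h2]
    · rw [decide_eq_true_iff, h3]
    · rw [decide_eq_true_iff, h4]
  · intro a b ha hb
    obtain ⟨-, h2, -, -, -⟩ := hC a b (by omega) hb
    refine (h5 (m.r^[a] (m.u^[b] z))).2.2.1 ?_ _ _ (ht a b) ?_
    · rw [h2]
      omega
    · have h := ht (a + 1) b
      rw [Function.iterate_succ_apply'] at h
      exact h
  · intro a b ha hb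
    obtain ⟨-, -, -, h4, h5'⟩ := hC a b ha (by omega)
    refine (h5 (m.r^[a] (m.u^[b] z))).2.2.2 ?_ _ _ (ht a b) ?_
    · rw [h4]
      omega
    · rw [h5' hb]
      exact ht a (b + 1)

end Pool.Agent.H95.FX
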